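import Mathlib

/-!
# A monotone class of graphs whose speed is not MC-finite

**Theorem.** There is a monotone (in particular hereditary) class of graphs whose speed is not ultimately
periodic modulo `2`, hence not MC-finite.

*Proof.* Flip lemma: let `C` be a monotone class with a non-bipartite member on `n` vertices which has an
odd number of labelled copies. Among all such members choose `Y` with the largest number of edges. A member
`G` of `C` on `n` vertices that contains `Y` and is not isomorphic to `Y` has more edges and is not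
bipartite, so it has an even number of labelled copies; hence forbidding `Y` as a subgraph changes the
parity of the speed of `C` at `n`.

Seeds: for `l` odd let `X` be the blow-up of the cycle of length `l` in which the `i`-th vertex is replaced
with `2 ^ i` independent vertices, `i < l`. It has `2 ^ l - 1` vertices, the number of its labelled copies
divides the odd number `(2 ^ l - 1)! / ∏ (2 ^ i)!`, it is not bipartite, but its subgraphs with fewer than
`l` vertices are.

Let `l 0 = 3`, `l (k + 1) = (2 ^ l k + k)! + 1` and `n k = 2 ^ l k - 1`. Starting with the class of all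
graphs, in the `k`-th step forbid, if necessary, a non-bipartite graph with `n k` vertices so that the speed
at `n k` has the parity of `k`; the seed with `n k` vertices is still in the class, since the graphs
forbidden so far are not bipartite and have fewer than `l k` vertices. The later steps do not change the
speed at `n k`. If the speed were ultimately periodic modulo `2` with period `q`, then its values at `n k`
and `n (k + 1)` would have the same parity for large `k`, because `n (k + 1) ≡ n k` modulo `q`.
-/

set_option autoImplicit false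

open SimpleGraph

namespace Pool.Agent.Results.MP_337eac_co.MonotoneNotMCFinite

/-- A property of the labelled graphs with vertex set `Fin n`, for every `n`. -/
abbrev GraphClass : Type := ∀ n : ℕ, SimpleGraph (Fin n) → Prop

/-- The class is closed under taking subgraphs (up to isomorphism, so in particular it is closed under
isomorphism): if `G` is in the class and some injective homomorphism maps `H` to `G`, then `H` is in the
class. -/
def IsMonotone (C : GraphClass) : Prop :=
  ∀ ⦃n m : ℕ⦄ (G : SimpleGraph (Fin n)) (H : SimpleGraph (Fin m)), H.IsContained G → C n G → C m H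

/-- The class is closed under isomorphism and taking induced subgraphs. -/
def IsHereditary (C : GraphClass) : Prop :=
  ∀ ⦃n m : ℕ⦄ (G : SimpleGraph (Fin n)) (H : SimpleGraph (Fin m)), Nonempty (H ↪g G) → C n G → C m H

/-- The number of graphs with vertex set `Fin n` in the class. -/
noncomputable def speed (C : GraphClass) (n : ℕ) : ℕ := Nat.card {G : SimpleGraph (Fin n) // C n G}

/-- The integer sequence `s` is MC-finite: for every `m ≥ 1` it satisfies eventually a linear recurrence
relation modulo `m`. -/
def MCFinite (s : ℕ → ℤ) : Prop :=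
  ∀ m : ℕ, 1 ≤ m → ∃ r p : ℕ, 1 ≤ r ∧ 1 ≤ p ∧ ∃ α : Fin p → ℤ,
    ∀ n : ℕ, r ≤ n → s (n + p) ≡ ∑ i : Fin p, α i * s (n + (i : ℕ)) [ZMOD (m : ℤ)]

/-! ### Eventually periodic sequences -/

/-- a sequence in a finite set in which every term is determined by the preceding one is eventually
periodic -/
theorem eventually_periodic {α : Type} [Finite α] (f : ℕ → α) (F : α → α) (r : ℕ)
    (h : ∀ n, r ≤ n → f (n + 1) = F (f n)) : ∃ N q : ℕ, 0 < q ∧ ∀ n, N ≤ n → f (n + q) = f n := by
  obtain ⟨i, j, hij, he⟩ := Finite.exists_ne_map_eq_of_infinite (fun k : ℕ => f (r + k))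
  have key : ∀ i j : ℕ, i < j → f (r + i) = f (r + j) →
      ∃ N q : ℕ, 0 < q ∧ ∀ n, N ≤ n → f (n + q) = f n := by
    intro i j hij he
    refine ⟨r + i, j - i, by omega, fun n hn => ?_⟩
    obtain ⟨t, rfl⟩ := Nat.exists_eq_add_of_le hn
    clear hn
    induction t with
    | zero =>
        have : r + i + 0 + (j - i) = r + j := by omega
        rw [this, ← he]; rfl
    | succ t ih =>
        have h1 : r + i + (t + 1) + (j - i) = (r + i + t + (j - i)) + 1 := by omega
        have h2 : r + i + (t + 1) = (r + i + t) + 1 := by omega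
        rw [h1, h2, h _ (by omega), h _ (by omega), ih]
  rcases lt_or_gt_of_ne hij with hlt | hgt
  · exact key i j hlt he
  · exact key j i hgt he.symm

theorem periodic_of_mcFinite (s : ℕ → ℤ) (hs : MCFinite s) :
    ∃ N q : ℕ, 0 < q ∧ ∀ n, N ≤ n → ((s (n + q) : ℤ) : ZMod 2) = ((s n : ℤ) : ZMod 2) := by
  obtain ⟨r, p, hr, hp, a, h⟩ := hs 2 (by norm_num)
  have hrec : ∀ n, r ≤ n → ((s (n + p) : ℤ) : ZMod 2)
      = ∑ i : Fin p, ((a i : ℤ) : ZMod 2) * ((s (n + (i : ℕ)) : ℤ) : ZMod 2) := by
    intro n hn
    have h1 := (ZMod.intCast_eq_intCast_iff _ _ 2).2 (h n hn)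
    rw [h1]
    push_cast
    rfl
  let w : ℕ → (Fin p → ZMod 2) := fun n i => ((s (n + (i : ℕ)) : ℤ) : ZMod 2)
  let F : (Fin p → ZMod 2) → (Fin p → ZMod 2) := fun v i =>
    if hi : (i : ℕ) + 1 < p then v ⟨(i : ℕ) + 1, hi⟩ else ∑ j : Fin p, ((a j : ℤ) : ZMod 2) * v j
  obtain ⟨N, q, hq, hN⟩ := eventually_periodic w F r (by
    intro n hn
    funext i
    simp only [w, F]
    split_ifs with hi
    · congr 2
      ring
    · have : n + 1 + (i : ℕ) = n + p := by
        have := i.2
        omega
      rw [this, hrec n hn])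
  refine ⟨N, q, hq, fun n hn => ?_⟩
  have := congrFun (hN n hn) ⟨0, by omega⟩
  simpa [w] using this

/-! ### The number of labelled copies -/

theorem odd_choose (m : ℕ) : ∀ k : ℕ, k ≤ 2 ^ m - 1 → Odd ((2 ^ m - 1).choose k) := by
  intro k
  induction k with
  | zero => intro _; simp
  | succ k ih =>
      intro hk
      have h0 := ih (by omega)
      have hpos : 0 < 2 ^ m := by positivity
      have h1 : (2 ^ m - 1 + 1).choose (k + 1) = (2 ^ m - 1).choose k + (2 ^ m - 1).choose (k + 1) :=
        Nat.choose_succ_succ _ _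
      have h2 : 2 ∣ (2 ^ m).choose (k + 1) :=
        Nat.Prime.dvd_choose_pow Nat.prime_two (by omega) (by omega)
      rw [Nat.sub_add_cancel hpos] at h1
      rw [h1] at h2
      obtain ⟨c, hc⟩ := h2
      obtain ⟨d, hd⟩ := h0
      refine ⟨c - d - 1, ?_⟩
      have : 0 < (2 ^ m - 1).choose (k + 1) := Nat.choose_pos hk
      omega

theorem odd_multinomial (l : ℕ) :
    ∃ t : ℕ, Odd t ∧ (2 ^ l - 1).factorial = t * ∏ i : Fin l, (2 ^ (i : ℕ)).factorial := by
  induction l with
  | zero => exact ⟨1, odd_one, by simp⟩
  | succ l ih =>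
      obtain ⟨t, ht, he⟩ := ih
      have hpos : 0 < 2 ^ l := by positivity
      have hpow : 2 ^ (l + 1) = 2 * 2 ^ l := by ring
      have h1 := Nat.add_choose_mul_factorial_mul_factorial (2 ^ l) (2 ^ l - 1)
      have h2 : 2 ^ l + (2 ^ l - 1) = 2 ^ (l + 1) - 1 := by omega
      rw [h2] at h1
      refine ⟨(2 ^ (l + 1) - 1).choose (2 ^ l - 1) * t, (odd_choose (l + 1) _ (by omega)).mul ht, ?_⟩
      rw [← h1, he, Fin.prod_univ_castSucc]
      simp only [Fin.val_castSucc, Fin.val_last]
      ring

/-- the permutations of `V` act on the graphs on `V` -/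
@[reducible] def permAction (V : Type) : MulAction (Equiv.Perm V) (SimpleGraph V) where
  smul σ G := G.comap (σ⁻¹ : Equiv.Perm V)
  one_smul G := by
    change G.comap _ = G
    ext a b
    simp
  mul_smul σ τ G := by
    change G.comap _ = (G.comap _).comap _
    ext a b
    simp

theorem mem_orbit_iff {V : Type} (X G : SimpleGraph V) :
    letI := permAction V
    G ∈ MulAction.orbit (Equiv.Perm V) X ↔ Nonempty (G ≃g X) := by
  let _ := permAction V
  constructor
  · rintro ⟨σ, hσ⟩
    change X.comap (σ⁻¹ : Equiv.Perm V) = G at hσ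
    subst hσ
    exact ⟨{ toEquiv := (σ⁻¹ : Equiv.Perm V), map_rel_iff' := by intro a b; simp }⟩
  · rintro ⟨f⟩
    refine ⟨(f.toEquiv : Equiv.Perm V)⁻¹, ?_⟩
    change X.comap _ = G
    ext a b
    simp only [inv_inv, comap_adj]
    exact f.map_rel_iff'

/-- the blow-up of a graph on `Fin l`: the `i`-th vertex is replaced with `2 ^ i` vertices -/
def blow {l : ℕ} (Z : SimpleGraph (Fin l)) : SimpleGraph (Σ i : Fin l, Fin (2 ^ (i : ℕ))) :=
  Z.comap Sigma.fst

theorem card_sigma (l : ℕ) : Fintype.card (Σ i : Fin l, Fin (2 ^ (i : ℕ))) = 2 ^ l - 1 := by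
  rw [Fintype.card_sigma]
  simp only [Fintype.card_fin]
  rw [Fin.sum_univ_eq_sum_range (fun i => 2 ^ i) l]
  exact Nat.geomSum_eq (le_refl 2) l |>.trans (by simp)

theorem odd_copies {l : ℕ} (Z : SimpleGraph (Fin l)) :
    Odd (Nat.card {G : SimpleGraph (Σ i : Fin l, Fin (2 ^ (i : ℕ))) // Nonempty (G ≃g blow Z)}) := by
  classical
  let V := Σ i : Fin l, Fin (2 ^ (i : ℕ))
  let _ := permAction V
  have h1 : Nat.card {G : SimpleGraph V // Nonempty (G ≃g blow Z)}
      = Nat.card (MulAction.orbit (Equiv.Perm V) (blow Z)) :=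
    Nat.card_congr (Equiv.subtypeEquivRight fun G => (mem_orbit_iff (blow Z) G).symm)
  have h2 : Nat.card (MulAction.orbit (Equiv.Perm V) (blow Z))
      * Nat.card (MulAction.stabilizer (Equiv.Perm V) (blow Z)) = Nat.card (Equiv.Perm V) := by
    rw [← Nat.card_prod]
    exact (Nat.card_congr (MulAction.orbitProdStabilizerEquivGroup (Equiv.Perm V) (blow Z)))
  let φ : (∀ i : Fin l, Equiv.Perm (Fin (2 ^ (i : ℕ)))) →* Equiv.Perm V :=
    Equiv.Perm.sigmaCongrRightHom _
  have hφ : Function.Injective φ := Equiv.Perm.sigmaCongrRightHom_injective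
  have h3 : φ.range ≤ MulAction.stabilizer (Equiv.Perm V) (blow Z) := by
    rintro _ ⟨g, rfl⟩
    rw [MulAction.mem_stabilizer_iff]
    change (blow Z).comap _ = blow Z
    rw [← map_inv]
    ext a b
    simp only [comap_adj, blow]
    rfl
  have h4 : Nat.card φ.range = ∏ i : Fin l, (2 ^ (i : ℕ)).factorial := by
    have : Nat.card φ.range = Nat.card (∀ i : Fin l, Equiv.Perm (Fin (2 ^ (i : ℕ)))) :=
      (Nat.card_congr (MonoidHom.ofInjective hφ).toEquiv).symm
    rw [this, Nat.card_pi]
    refine Finset.prod_congr rfl fun i _ => ?_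
    rw [Nat.card_eq_fintype_card, Fintype.card_perm, Fintype.card_fin]
  have h5 : Nat.card φ.range ∣ Nat.card (MulAction.stabilizer (Equiv.Perm V) (blow Z)) :=
    Subgroup.card_dvd_of_le h3
  obtain ⟨c, hc⟩ := h5
  have h6 : Nat.card (Equiv.Perm V) = (2 ^ l - 1).factorial := by
    rw [Nat.card_eq_fintype_card, Fintype.card_perm, card_sigma]
  obtain ⟨t, ht, he⟩ := odd_multinomial l
  rw [h6, he, hc, h4] at h2
  have hpos : 0 < ∏ i : Fin l, (2 ^ (i : ℕ)).factorial :=
    Finset.prod_pos fun i _ => Nat.factorial_pos _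
  have h7 : Nat.card (MulAction.orbit (Equiv.Perm V) (blow Z)) * c = t := by
    apply Nat.eq_of_mul_eq_mul_right hpos
    rw [← h2]; ring
  change Odd (Nat.card {G : SimpleGraph V // Nonempty (G ≃g blow Z)})
  rw [h1]
  rw [← h7] at ht
  exact Nat.Odd.of_mul_right ht |> fun h => (Nat.odd_mul.1 ht).1

/-- a graph with fewer than `l` vertices that maps to the cycle of length `l` is bipartite -/
theorem colorable_of_hom {l m : ℕ} (hml : m < l) (H : SimpleGraph (Fin m))
    (g : H →g cycleGraph l) : H.Colorable 2 := by
  obtain ⟨c, hc⟩ : ∃ c : Fin l, ∀ x, g x ≠ c := by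
    by_contra hcon
    push Not at hcon
    have := Fintype.card_le_of_surjective g hcon
    simp at this
    omega
  have hl : 0 < l := by omega
  have : NeZero l := ⟨by omega⟩
  have key : ∀ a b : Fin l, a ≠ 0 → (a - b).val = 1 → b ≠ 0 → a.val = b.val + 1 := by
    intro a b ha hab hb
    have h1 : a = b + (a - b) := by abel
    have h2 : a.val = (b.val + (a - b).val) % l := by
      conv_lhs => rw [h1]
      exact Fin.val_add _ _
    rw [hab] at h2
    have hblt := b.2
    by_cases hlt : b.val + 1 < l
    · rw [Nat.mod_eq_of_lt hlt] at h2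
      exact h2
    · have : b.val + 1 = l := by omega
      rw [this, Nat.mod_self] at h2
      exact absurd (Fin.ext (by simpa using h2)) ha
  have hcol : H.Coloring (Fin 2) := SimpleGraph.Coloring.mk
    (fun x => ⟨(g x - c).val % 2, Nat.mod_lt _ (by norm_num)⟩) (by
      intro u v huv heq
      have h1 : (cycleGraph l).Adj (g u) (g v) := g.map_adj huv
      rw [cycleGraph_adj'] at h1
      have hu : g u - c ≠ 0 := sub_ne_zero.2 (hc u)
      have hv : g v - c ≠ 0 := sub_ne_zero.2 (hc v)
      have h2 : (g u - c).val % 2 = (g v - c).val % 2 := by simpa using heq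
      rcases h1 with h1 | h1
      · have h3 : (g u - c) - (g v - c) = g u - g v := by abel
        have := key (g u - c) (g v - c) hu (by rw [h3]; exact h1) hv
        omega
      · have h3 : (g v - c) - (g u - c) = g v - g u := by abel
        have := key (g v - c) (g u - c) hv (by rw [h3]; exact h1) hu
        omega)
  exact ⟨hcol⟩

theorem blow_not_colorable {l : ℕ} (hl : 2 ≤ l) (hodd : Odd l) :
    ¬ (blow (cycleGraph l)).Colorable 2 := by
  intro h
  let f : cycleGraph l →g blow (cycleGraph l) :=
    { toFun := fun i => ⟨i, ⟨0, by positivity⟩⟩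
      map_rel' := by intro a b hab; exact hab }
  have h1 : (cycleGraph l).Colorable 2 := h.of_hom f
  have h2 := h1.chromaticNumber_le
  rw [chromaticNumber_cycleGraph_of_odd l hl hodd] at h2
  norm_num at h2

/-- The seeds of the construction: a graph with an odd number of labelled copies on `Fin (2 ^ l - 1)`,
which is not bipartite, although all its subgraphs with fewer than `l` vertices are. -/
theorem exists_seed {l : ℕ} (hl : 2 ≤ l) (hodd : Odd l) :
    ∃ X : SimpleGraph (Fin (2 ^ l - 1)),
      Odd (Nat.card {G : SimpleGraph (Fin (2 ^ l - 1)) // Nonempty (G ≃g X)}) ∧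
      ¬ X.Colorable 2 ∧
      ∀ (m : ℕ) (H : SimpleGraph (Fin m)), m < l → H.IsContained X → H.Colorable 2 := by
  classical
  let e : (Σ i : Fin l, Fin (2 ^ (i : ℕ))) ≃ Fin (2 ^ l - 1) :=
    (Fintype.equivFin _).trans (finCongr (card_sigma l))
  let X : SimpleGraph (Fin (2 ^ l - 1)) := (blow (cycleGraph l)).comap e.symm
  let iX : X ≃g blow (cycleGraph l) :=
    { toEquiv := e.symm, map_rel_iff' := by intro a b; simp [X] }
  refine ⟨X, ?_, ?_, ?_⟩
  · have h := odd_copies (cycleGraph l)
    have hc : Nat.card {G : SimpleGraph (Fin (2 ^ l - 1)) // Nonempty (G ≃g X)}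
        = Nat.card {G : SimpleGraph (Σ i : Fin l, Fin (2 ^ (i : ℕ))) //
            Nonempty (G ≃g blow (cycleGraph l))} := by
      refine Nat.card_congr (Equiv.subtypeEquiv e.symm.simpleGraph fun G => ?_)
      have j : e.symm.simpleGraph G ≃g G :=
        { toEquiv := e, map_rel_iff' := by intro a b; simp [Equiv.simpleGraph] }
      exact ⟨fun ⟨f⟩ => ⟨(j.trans f).trans iX⟩, fun ⟨f⟩ => ⟨(j.symm.trans f).trans iX.symm⟩⟩
    rw [hc]; exact h
  · intro h
    exact blow_not_colorable hl hodd (h.of_hom iX.symm.toHom)
  · rintro m H hm ⟨f⟩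
    let π : blow (cycleGraph l) →g cycleGraph l :=
      { toFun := Sigma.fst, map_rel' := by intro a b hab; exact hab }
    exact colorable_of_hom hm H ((π.comp iX.toHom).comp f.toHom)

/-! ### Flipping the parity -/

theorem odd_card_of_classes {α : Type} [Fintype α] [DecidableEq α] (s : Setoid α) (T : Finset α)
    (hT : ∀ x ∈ T, ∀ y, s x y → y ∈ T) (y : α) (hy : y ∈ T)
    (hodd : Odd (Nat.card {x // s x y}))
    (heven : ∀ z ∈ T, ¬ s z y → Even (Nat.card {x // s x z})) : Odd T.card := by
  classical
  have hcl : ∀ z ∈ T, (T.filter fun x => (Quotient.mk s x) = Quotient.mk s z).card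
      = Nat.card {x // s x z} := by
    intro z hz
    rw [Nat.card_eq_fintype_card, Fintype.card_subtype]
    congr 1
    ext x
    simp only [Finset.mem_filter, Finset.mem_univ, true_and]
    constructor
    · rintro ⟨_, h⟩; exact Quotient.exact h
    · intro h
      exact ⟨hT z hz x (s.symm' h), Quotient.sound h⟩
  rw [Finset.card_eq_sum_card_image (fun x => Quotient.mk s x) T]
  have hmem : Quotient.mk s y ∈ T.image (fun x => Quotient.mk s x) := Finset.mem_image_of_mem _ hy
  rw [← Finset.add_sum_erase _ _ hmem]
  rw [hcl y hy]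
  refine hodd.add_even (Finset.even_sum _ fun b hb => ?_)
  obtain ⟨hne, hb⟩ := Finset.mem_erase.1 hb
  obtain ⟨z, hz, rfl⟩ := Finset.mem_image.1 hb
  rw [hcl z hz]
  exact heven z hz fun h => hne (Quotient.sound h)

/-- the class obtained by forbidding `Y` as a subgraph -/
def forbid (C : GraphClass) {k : ℕ} (Y : SimpleGraph (Fin k)) : GraphClass :=
  fun n G => C n G ∧ ¬ Y.IsContained G

theorem forbid_monotone {C : GraphClass} (hC : IsMonotone C) {k : ℕ} (Y : SimpleGraph (Fin k)) :
    IsMonotone (forbid C Y) :=
  fun _ _ _ _ hHG hG => ⟨hC _ _ hHG hG.1, fun h => hG.2 (h.trans hHG)⟩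

/-- ordered pairs of adjacent vertices -/
noncomputable def arcs {n : ℕ} (G : SimpleGraph (Fin n)) : Finset (Fin n × Fin n) :=
  open Classical in Finset.univ.filter fun p => G.Adj p.1 p.2

theorem iso_of_contained {n : ℕ} (Y G : SimpleGraph (Fin n)) (h : Y.IsContained G)
    (hc : (arcs G).card ≤ (arcs Y).card) : Nonempty (G ≃g Y) := by
  classical
  obtain ⟨f⟩ := h
  have hbij : Function.Bijective f.toHom := Finite.injective_iff_bijective.1 f.injective'
  let e : Fin n ≃ Fin n := Equiv.ofBijective _ hbij
  have hsub : (arcs Y).image (fun p => (e p.1, e p.2)) ⊆ arcs G := by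
    intro p hp
    obtain ⟨q, hq, rfl⟩ := Finset.mem_image.1 hp
    simp only [arcs, Finset.mem_filter, Finset.mem_univ, true_and] at hq ⊢
    exact f.toHom.map_adj hq
  have hinj : Function.Injective (fun p : Fin n × Fin n => (e p.1, e p.2)) := by
    intro p q hpq
    simp only [Prod.mk.injEq, EmbeddingLike.apply_eq_iff_eq] at hpq
    exact Prod.ext hpq.1 hpq.2
  have heq := Finset.eq_of_subset_of_card_le hsub (by
    rw [Finset.card_image_of_injective _ hinj]; exact hc)
  refine ⟨RelIso.symm { toEquiv := e, map_rel_iff' := ?_ }⟩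
  intro a b
  constructor
  · intro hab
    have : (e a, e b) ∈ arcs G := by simp [arcs]; exact hab
    rw [← heq] at this
    obtain ⟨q, hq, hqe⟩ := Finset.mem_image.1 this
    have : q = (a, b) := hinj hqe
    subst this
    simpa [arcs] using hq
  · intro hab
    exact f.toHom.map_adj hab

/-- **Flip lemma**: if a monotone class has a non-bipartite member on `Fin n` with an odd number of
labelled copies, then one can flip the parity of the speed at `n` by forbidding a non-bipartite graph
with `n` vertices. -/
theorem flip (C : GraphClass) (hC : IsMonotone C) (n : ℕ) (X : SimpleGraph (Fin n)) (hX : C n X)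
    (hXc : ¬ X.Colorable 2)
    (hXo : Odd (Nat.card {G : SimpleGraph (Fin n) // Nonempty (G ≃g X)})) :
    ∃ Y : SimpleGraph (Fin n), ¬ Y.Colorable 2 ∧ Odd (speed (forbid C Y) n + speed C n) := by
  classical
  let O : Finset (SimpleGraph (Fin n)) := Finset.univ.filter fun Y =>
    C n Y ∧ ¬ Y.Colorable 2 ∧ Odd (Nat.card {G : SimpleGraph (Fin n) // Nonempty (G ≃g Y)})
  have hO : O.Nonempty := ⟨X, Finset.mem_filter.2 ⟨Finset.mem_univ _, hX, hXc, hXo⟩⟩
  obtain ⟨Y, hYO, hmax⟩ := Finset.exists_max_image O (fun Y => (arcs Y).card) hO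
  obtain ⟨hYC, hYc, hYo⟩ : C n Y ∧ ¬ Y.Colorable 2 ∧
      Odd (Nat.card {G : SimpleGraph (Fin n) // Nonempty (G ≃g Y)}) := by
    simpa only [O, Finset.mem_filter, Finset.mem_univ, true_and] using hYO
  refine ⟨Y, hYc, ?_⟩
  let T : Finset (SimpleGraph (Fin n)) := Finset.univ.filter fun G => C n G ∧ Y.IsContained G
  let s : Setoid (SimpleGraph (Fin n)) :=
    { r := fun G H => Nonempty (G ≃g H)
      iseqv := ⟨fun G => ⟨SimpleGraph.Iso.refl⟩, fun ⟨f⟩ => ⟨f.symm⟩, fun ⟨f⟩ ⟨g⟩ => ⟨f.trans g⟩⟩ }
  have hTo : Odd T.card := by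
    refine odd_card_of_classes s T ?_ Y ?_ hYo ?_
    · rintro G hG H ⟨f⟩
      simp only [T, Finset.mem_filter, Finset.mem_univ, true_and] at hG ⊢
      refine ⟨hC G H ⟨f.symm.toCopy⟩ hG.1, hG.2.trans ⟨f.toCopy⟩⟩
    · simp only [T, Finset.mem_filter, Finset.mem_univ, true_and]
      exact ⟨hYC, SimpleGraph.IsContained.refl Y⟩
    · intro Z hZ hZY
      simp only [T, Finset.mem_filter, Finset.mem_univ, true_and] at hZ
      by_contra hodd
      rw [Nat.not_even_iff_odd] at hodd
      obtain ⟨g⟩ := hZ.2
      have hZc : ¬ Z.Colorable 2 := fun h => hYc (h.of_hom g.toHom)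
      have hZO : Z ∈ O := by
        simp only [O, Finset.mem_filter, Finset.mem_univ, true_and]
        exact ⟨hZ.1, hZc, hodd⟩
      exact hZY (iso_of_contained Y Z hZ.2 (hmax Z hZO))
  have h1 : speed C n = (Finset.univ.filter fun G : SimpleGraph (Fin n) => C n G).card := by
    rw [speed, Nat.card_eq_fintype_card, Fintype.card_subtype]
  have h2 : speed (forbid C Y) n
      = (Finset.univ.filter fun G : SimpleGraph (Fin n) => C n G ∧ ¬ Y.IsContained G).card := by
    rw [speed, Nat.card_eq_fintype_card, Fintype.card_subtype]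
    congr 1
    ext G
    constructor
    · intro h; exact Finset.mem_filter.2 ⟨Finset.mem_univ _, (Finset.mem_filter.1 h).2⟩
    · intro h; exact Finset.mem_filter.2 ⟨Finset.mem_univ _, (Finset.mem_filter.1 h).2⟩
  have h3 : speed C n = T.card + speed (forbid C Y) n := by
    rw [h1, h2, ← Finset.card_filter_add_card_filter_not (fun G => Y.IsContained G),
      Finset.filter_filter, Finset.filter_filter]
  rw [h3]
  obtain ⟨c, hc⟩ := hTo
  exact ⟨speed (forbid C Y) n + c, by omega⟩

/-! ### The construction -/

/-- lengths of the cycles -/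
def len : ℕ → ℕ
  | 0 => 3
  | k + 1 => (2 ^ len k + k).factorial + 1

/-- the places at which the parity of the speed is controlled -/
def place (k : ℕ) : ℕ := 2 ^ len k - 1

theorem three_le_len (k : ℕ) : 3 ≤ len k := by
  induction k with
  | zero => exact le_refl 3
  | succ k ih =>
      have h1 : 2 ^ 3 ≤ 2 ^ len k := Nat.pow_le_pow_right (by norm_num) ih
      have h2 := Nat.self_le_factorial (2 ^ len k + k)
      simp only [len]
      omega

theorem len_odd (k : ℕ) : Odd (len k) := by
  cases k with
  | zero => exact ⟨1, rfl⟩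
  | succ k =>
      have h1 : 2 ^ 3 ≤ 2 ^ len k := Nat.pow_le_pow_right (by norm_num) (three_le_len k)
      have h2 : 2 ∣ (2 ^ len k + k).factorial := Nat.dvd_factorial (by norm_num) (by omega)
      obtain ⟨c, hc⟩ := h2
      exact ⟨c, by simp only [len]; omega⟩

theorem place_lt_len (k : ℕ) : place k < len (k + 1) := by
  have h2 := Nat.self_le_factorial (2 ^ len k + k)
  simp only [len, place]
  omega

theorem len_lt_place (k : ℕ) : len k < place k := by
  have h1 : len k < 2 ^ len k := Nat.lt_two_pow_self
  have h2 := three_le_len k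
  obtain ⟨t, ht⟩ := Nat.exists_eq_add_of_le h2
  simp only [place]
  rw [ht]
  have : 3 + t < 2 ^ (3 + t) - 1 := by
    have : t < 2 ^ t := Nat.lt_two_pow_self
    rw [pow_add]
    omega
  exact this

theorem place_strictMono : StrictMono place :=
  strictMono_nat_of_lt_succ fun k => (place_lt_len k).trans (len_lt_place (k + 1))

theorem len_strictMono : StrictMono len :=
  strictMono_nat_of_lt_succ fun k => (len_lt_place k).trans (place_lt_len k)

open Classical in
/-- one step of the construction: make the speed at `n` have the parity of `k` -/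
noncomputable def step (n k : ℕ) (C : GraphClass) : GraphClass :=
  if h : ∃ Y : SimpleGraph (Fin n), ¬ Y.Colorable 2 ∧ speed (forbid C Y) n % 2 = k % 2 then
    forbid C h.choose
  else C

/-- the decreasing sequence of classes -/
noncomputable def cls : ℕ → GraphClass
  | 0 => fun _ _ => True
  | k + 1 => step (place k) k (cls k)

theorem cls_succ (k : ℕ) : cls (k + 1) = cls k ∨
    ∃ Y : SimpleGraph (Fin (place k)), ¬ Y.Colorable 2 ∧ cls (k + 1) = forbid (cls k) Y := by
  simp only [cls, step]
  split_ifs with h
  · exact Or.inr ⟨_, h.choose_spec.1, rfl⟩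
  · exact Or.inl rfl

theorem cls_monotone (k : ℕ) : IsMonotone (cls k) := by
  induction k with
  | zero => intro n m G H _ _; trivial
  | succ k ih =>
      rcases cls_succ k with h | ⟨Y, _, h⟩
      · rw [h]; exact ih
      · rw [h]; exact forbid_monotone ih Y

/-- every graph whose small subgraphs are bipartite is in the class -/
theorem cls_large (k : ℕ) (n : ℕ) (G : SimpleGraph (Fin n))
    (hG : ∀ (m : ℕ) (H : SimpleGraph (Fin m)), m < len k → H.IsContained G → H.Colorable 2) :
    cls k n G := by
  induction k with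
  | zero => trivial
  | succ k ih =>
      have h0 : cls k n G := ih fun m H hm => hG m H (hm.trans (len_strictMono (Nat.lt_succ_self k)))
      rcases cls_succ k with h | ⟨Y, hY, h⟩
      · rw [h]; exact h0
      · rw [h]
        exact ⟨h0, fun hc => hY (hG _ Y (place_lt_len k) hc)⟩

theorem speed_cls (k : ℕ) : speed (cls (k + 1)) (place k) % 2 = k % 2 := by
  by_cases h : ∃ Y : SimpleGraph (Fin (place k)), ¬ Y.Colorable 2 ∧
      speed (forbid (cls k) Y) (place k) % 2 = k % 2
  · have : cls (k + 1) = forbid (cls k) h.choose := by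
      simp only [cls, step]
      rw [dif_pos h]
    rw [this]
    exact h.choose_spec.2
  · have : cls (k + 1) = cls k := by
      simp only [cls, step]
      rw [dif_neg h]
    rw [this]
    by_contra hne
    apply h
    obtain ⟨X, hXo, hXc, hXs⟩ := exists_seed (l := len k)
      (by have := three_le_len k; omega) (len_odd k)
    obtain ⟨Y, hY, ho⟩ := flip (cls k) (cls_monotone k) (place k) X
      (cls_large k _ X hXs) hXc hXo
    refine ⟨Y, hY, ?_⟩
    obtain ⟨c, hc⟩ := ho
    omega

/-- the class: intersection of all the classes `cls k` -/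
def lim : GraphClass := fun n G => ∀ k, cls k n G

theorem lim_monotone : IsMonotone lim :=
  fun _ _ G H hHG hG k => cls_monotone k G H hHG (hG k)

theorem cls_anti {j k : ℕ} (hjk : j ≤ k) (n : ℕ) (G : SimpleGraph (Fin n)) (h : cls k n G) :
    cls j n G := by
  induction k with
  | zero =>
      have : j = 0 := by omega
      subst this; exact h
  | succ k ih =>
      rcases Nat.lt_or_ge j (k + 1) with hlt | hge
      · apply ih (by omega)
        rcases cls_succ k with h' | ⟨Y, hY, h'⟩
        · rw [h'] at h; exact h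
        · rw [h'] at h; exact h.1
      · have : j = k + 1 := by omega
        subst this; exact h

theorem not_contained_of_lt {n m : ℕ} (hnm : n < m) (Y : SimpleGraph (Fin m)) (G : SimpleGraph (Fin n)) :
    ¬ Y.IsContained G := by
  rintro ⟨f⟩
  have := Fintype.card_le_of_injective _ f.injective'
  simp at this
  omega

theorem lim_iff (k : ℕ) (G : SimpleGraph (Fin (place k))) :
    lim (place k) G ↔ cls (k + 1) (place k) G := by
  refine ⟨fun h => h (k + 1), fun h j => ?_⟩
  rcases Nat.lt_or_ge j (k + 1) with hlt | hge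
  · exact cls_anti hlt.le _ _ h
  · obtain ⟨t, rfl⟩ := Nat.exists_eq_add_of_le hge
    clear hge
    induction t with
    | zero => exact h
    | succ t ih =>
        have he : k + 1 + (t + 1) = (k + 1 + t) + 1 := by ring
        rw [he]
        rcases cls_succ (k + 1 + t) with h' | ⟨Y, hY, h'⟩
        · rw [h']; exact ih
        · rw [h']
          exact ⟨ih, not_contained_of_lt (place_strictMono (by omega)) Y G⟩

theorem speed_lim (k : ℕ) : speed lim (place k) % 2 = k % 2 := by
  rw [← speed_cls k, speed, speed]
  congr 1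
  exact Nat.card_congr (Equiv.subtypeEquivRight fun G => lim_iff k G)

theorem not_mcFinite : ¬ MCFinite (fun n => (speed lim n : ℤ)) := by
  intro hmc
  obtain ⟨N, q, hq, hper⟩ := periodic_of_mcFinite _ hmc
  have : NeZero q := ⟨hq.ne'⟩
  obtain ⟨N₂, d, hd, hpow⟩ := eventually_periodic (fun s : ℕ => (2 : ZMod q) ^ s) (fun x => x * 2) 0
    (fun n _ => by rw [pow_succ])
  -- the period may be multiplied
  have hper' : ∀ (a n : ℕ), N ≤ n →
      (((speed lim (n + q * a) : ℕ) : ℤ) : ZMod 2) = (((speed lim n : ℕ) : ℤ) : ZMod 2) := by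
    intro a n hn
    induction a with
    | zero => simp
    | succ a ih =>
        have := hper (n + q * a) (by omega)
        rw [show n + q * (a + 1) = n + q * a + q by ring, this, ih]
  have hpow' : ∀ (a s : ℕ), N₂ ≤ s → (2 : ZMod q) ^ (s + d * a) = (2 : ZMod q) ^ s := by
    intro a s hs
    induction a with
    | zero => simp
    | succ a ih =>
        have := hpow (s + d * a) (by omega)
        rw [show s + d * (a + 1) = s + d * a + d by ring, this, ih]
  -- a large index
  obtain ⟨k, hk⟩ : ∃ k, k = N + N₂ + d + 1 := ⟨_, rfl⟩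
  have hk1 : N + N₂ + d + 1 ≤ len (k + 1) := by
    have h1 : k ≤ len k := len_strictMono.le_apply
    have h2 : len k < len (k + 1) := len_strictMono (Nat.lt_succ_self k)
    omega
  have hlenlt : len (k + 1) < len (k + 2) := len_strictMono (Nat.lt_succ_self (k + 1))
  have hdvd : d ∣ len (k + 2) - len (k + 1) := by
    have h1 : len (k + 2) - len (k + 1)
        = (2 ^ len (k + 1) + (k + 1)).factorial - (2 ^ len k + k).factorial := by
      simp only [len]
      omega
    rw [h1]
    have hdk : d ≤ k := by omega
    exact Nat.dvd_sub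
      (Nat.dvd_factorial hd (hdk.trans ((Nat.le_succ k).trans (Nat.le_add_left _ _))))
      (Nat.dvd_factorial hd (hdk.trans (Nat.le_add_left _ _)))
  obtain ⟨a, ha⟩ := hdvd
  have hl2 : len (k + 2) = len (k + 1) + d * a := by omega
  have hz : (2 : ZMod q) ^ len (k + 2) = (2 : ZMod q) ^ len (k + 1) := by
    rw [hl2]; exact hpow' a _ (by omega)
  have hplt : place (k + 1) < place (k + 2) := place_strictMono (Nat.lt_succ_self (k + 1))
  have hqd : q ∣ place (k + 2) - place (k + 1) := by
    have h1 : place (k + 2) - place (k + 1) = 2 ^ len (k + 2) - 2 ^ len (k + 1) := by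
      have := Nat.one_le_two_pow (n := len (k + 2))
      have := Nat.one_le_two_pow (n := len (k + 1))
      simp only [place]
      omega
    rw [h1, ← Nat.modEq_iff_dvd' (Nat.pow_le_pow_right (by norm_num) hlenlt.le)]
    rw [← ZMod.natCast_eq_natCast_iff]
    push_cast
    exact hz.symm
  obtain ⟨b, hb⟩ := hqd
  have hp2 : place (k + 2) = place (k + 1) + q * b := by omega
  have hNle : N ≤ place (k + 1) := by
    have := len_lt_place (k + 1)
    omega
  have hfin := hper' b (place (k + 1)) hNle
  rw [← hp2] at hfin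
  push_cast at hfin
  have h1 := speed_lim (k + 2)
  have h2 := speed_lim (k + 1)
  have h3 : speed lim (place (k + 2)) % 2 = speed lim (place (k + 1)) % 2 :=
    (ZMod.natCast_eq_natCast_iff _ _ 2).1 hfin
  omega

/-- **Answer to Q1.** There is a class of finite graphs that is monotone (hence hereditary) and whose
speed is not MC-finite; in fact the speed of the class is not ultimately periodic modulo `2`. -/
theorem result : ∃ C : GraphClass, IsMonotone C ∧ IsHereditary C ∧
    ¬ MCFinite (fun n => (speed C n : ℤ)) :=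
  ⟨lim, lim_monotone, fun _ _ G H ⟨f⟩ hG => lim_monotone G H ⟨f.toCopy⟩ hG, not_mcFinite⟩

end Pool.Agent.Results.MP_337eac_co.MonotoneNotMCFinite
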